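import Mathlib

/-!
# Windows of moduli and windows of residue classes

A set of moduli with at most `2 N / (log N) ^ V` members up to `N` and, for every other modulus `q`, a
set of at most `q / (log q) ^ U` classes. For a sequence `v n` with `log (v n) ≥ n ^ δ` and almost
every `α > 0`, the windows of length `(log v n) ^ b` around `α * v n` contain no member of the set,
and for almost every `β` the windows around `β * q` contain none of the classes, for all `q` of the
first windows.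
-/

set_option autoImplicit false

namespace Pool.Agent.V1166.WI

open MeasureTheory Filter Finset

/-- the lemma of Borel and Cantelli for finite unions of intervals -/
lemma bc_balls {ι : Type} (F : ℕ → Finset ι) (c r : ℕ → ι → ℝ) (hr : ∀ n, ∀ i ∈ F n, 0 ≤ r n i)
    (hs : Summable fun n => ∑ i ∈ F n, 2 * r n i) :
    ∀ᵐ x : ℝ, ∀ᶠ n : ℕ in atTop, ∀ i ∈ F n, r n i < |x - c n i| := by
  have h1 : ∀ᵐ x : ℝ, ∀ᶠ n : ℕ in atTop, x ∉ ⋃ i ∈ F n, Metric.closedBall (c n i) (r n i) := by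
    refine ae_eventually_notMem (ne_top_of_le_ne_top hs.tsum_ofReal_ne_top
      (ENNReal.tsum_le_tsum fun n => ?_))
    calc volume (⋃ i ∈ F n, Metric.closedBall (c n i) (r n i))
        ≤ ∑ i ∈ F n, volume (Metric.closedBall (c n i) (r n i)) := measure_biUnion_finset_le _ _
      _ = ∑ i ∈ F n, ENNReal.ofReal (2 * r n i) := by
          refine sum_congr rfl fun i _ => ?_
          rw [Real.volume_closedBall]
      _ = ENNReal.ofReal (∑ i ∈ F n, 2 * r n i) :=
          (ENNReal.ofReal_sum_of_nonneg fun i hi => mul_nonneg (by norm_num) (hr n i hi)).symm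
  filter_upwards [h1] with x hx
  filter_upwards [hx] with n hn i hi
  by_contra hcon
  refine hn (Set.mem_iUnion₂.2 ⟨i, hi, ?_⟩)
  rw [Metric.mem_closedBall, Real.dist_eq]
  exact not_lt.1 hcon

/-- the powers of the logarithm of a fast sequence -/
lemma pow_log_le {δ L : ℝ} {n a k : ℕ} (hδ : 0 < δ) (hn : 1 ≤ n) (hk : 2 ≤ δ * k)
    (hL : (n : ℝ) ^ δ ≤ L) : L ^ a / L ^ (a + k) ≤ ((n : ℝ) ^ 2)⁻¹ := by
  have hn1 : (1 : ℝ) ≤ n := by exact_mod_cast hn
  have hL0 : 0 < L := lt_of_lt_of_le (Real.rpow_pos_of_pos (by linarith) _) hL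
  rw [pow_add, div_mul_cancel_left₀ (by positivity)]
  refine inv_anti₀ (by positivity) ?_
  calc (n : ℝ) ^ 2 = (n : ℝ) ^ (2 : ℝ) := by rw [Real.rpow_two]
    _ ≤ (n : ℝ) ^ (δ * k) := Real.rpow_le_rpow_of_exponent_le hn1 hk
    _ = ((n : ℝ) ^ δ) ^ k := by rw [Real.rpow_mul (by linarith), Real.rpow_natCast]
    _ ≤ L ^ k := pow_le_pow_left₀ (by positivity) hL k

/-- eventual properties of the sequence -/
lemma ev_fast {v : ℕ → ℝ} {δ : ℝ} (hδ : 0 < δ) (hv : ∀ᶠ n : ℕ in atTop, (n : ℝ) ^ δ ≤ Real.log (v n)) :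
    Tendsto (fun n => Real.log (v n)) atTop atTop :=
  tendsto_atTop_mono' _ hv ((tendsto_rpow_atTop hδ).comp tendsto_natCast_atTop_atTop)

/-- powers of the logarithm against the number, `L = log v` -/
lemma ev_pow (b : ℕ) (c : ℝ) (hc : 0 < c) : ∀ᶠ L : ℝ in atTop,
    L ^ b ≤ c * Real.exp L ∧ L ^ b + Real.exp (L / 2) ≤ c * Real.exp L ∧ 1 ≤ L := by
  have h1 := (Real.tendsto_exp_div_pow_atTop b).eventually_ge_atTop (2 / c)
  have h2 : ∀ᶠ L : ℝ in atTop, 2 / c ≤ Real.exp (L / 2) :=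
    (Real.tendsto_exp_atTop.comp (tendsto_id.atTop_div_const (by norm_num))).eventually_ge_atTop _
  filter_upwards [h1, h2, eventually_ge_atTop 1] with L h3 h4 h5
  have h6 : 2 * L ^ b ≤ c * Real.exp L := by
    rw [le_div_iff₀ (by positivity), div_mul_eq_mul_div, div_le_iff₀ hc] at h3
    linarith [mul_comm (Real.exp L) c]
  have h7 : 2 * Real.exp (L / 2) ≤ c * Real.exp L := by
    have h8 : Real.exp L = Real.exp (L / 2) * Real.exp (L / 2) := by
      rw [← Real.exp_add]
      congr 1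
      ring
    rw [div_le_iff₀ hc] at h4
    rw [h8]
    nlinarith [Real.exp_pos (L / 2)]
  have h9 : 0 ≤ L ^ b := by positivity
  have h10 := Real.exp_pos (L / 2)
  exact ⟨by linarith, by linarith, h5⟩

/-- **First step**: windows of moduli -/
theorem step_one {Good : ℕ → Prop} {b k : ℕ} {δ : ℝ} (hδ : 0 < δ) (hk : 2 ≤ δ * k)
    (h1 : ∃ N₀ : ℕ, ∀ N : ℕ, N₀ ≤ N → ∀ F : Finset ℕ, (∀ q ∈ F, 1 ≤ q ∧ q ≤ N ∧ ¬ Good q) →
      (F.card : ℝ) ≤ 2 * N / (Real.log N) ^ (b + k)) {v : ℕ → ℝ} (hv0 : ∀ n, 0 < v n)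
    (hv : ∀ᶠ n : ℕ in atTop, (n : ℝ) ^ δ ≤ Real.log (v n)) :
    ∀ᵐ α : ℝ, 0 < α → ∀ᶠ n : ℕ in atTop, ∀ q : ℕ,
      |(q : ℝ) - α * v n| ≤ (Real.log (v n)) ^ b → Good q ∧ Real.log (v n) / 2 ≤ Real.log q := by
  classical
  obtain ⟨N₀, hN₀⟩ := h1
  have hT := ev_fast hδ hv
  have hvT : Tendsto v atTop atTop := by
    have h2 := Real.tendsto_exp_atTop.comp hT
    refine h2.congr fun n => ?_
    simp only [Function.comp]
    exact Real.exp_log (hv0 n)
  have key : ∀ R : ℕ, ∀ᵐ α : ℝ, ∀ᶠ n : ℕ in atTop,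
      ∀ q ∈ (Icc 1 ⌈((R : ℝ) + 1) * v n⌉₊).filter (fun q => ¬ Good q),
        (Real.log (v n)) ^ b / v n < |α - (q : ℝ) / v n| := by
    intro R
    obtain ⟨n₁, hn₁⟩ : ∃ n₁ : ℕ, ∀ n, n₁ ≤ n → (n : ℝ) ^ δ ≤ Real.log (v n) ∧
        1 ≤ Real.log (v n) ∧ (N₀ : ℝ) ≤ v n ∧ 1 ≤ n ∧ 1 ≤ v n := by
      have h2 := (((hv.and (hT.eventually_ge_atTop 1)).and (hvT.eventually_ge_atTop (N₀ : ℝ))).and
        (eventually_ge_atTop 1)).and (hvT.eventually_ge_atTop 1)
      obtain ⟨n₁, hn₁⟩ := eventually_atTop.1 h2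
      exact ⟨n₁, fun n hn => by
        obtain ⟨⟨⟨⟨a1, a2⟩, a3⟩, a4⟩, a5⟩ := hn₁ n hn
        exact ⟨a1, a2, a3, a4, a5⟩⟩
    have hb : ∀ᵐ α : ℝ, ∀ᶠ n : ℕ in atTop, ∀ q ∈ (if n₁ ≤ n then
        (Icc 1 ⌈((R : ℝ) + 1) * v n⌉₊).filter (fun q => ¬ Good q) else ∅),
        (Real.log (v n)) ^ b / v n < |α - (q : ℝ) / v n| := by
      refine bc_balls (fun n => if n₁ ≤ n then
        (Icc 1 ⌈((R : ℝ) + 1) * v n⌉₊).filter (fun q => ¬ Good q) else ∅)
        (fun n q => (q : ℝ) / v n) (fun n _ => (Real.log (v n)) ^ b / v n) ?_ ?_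
      · intro n q hq
        by_cases hn : n₁ ≤ n
        · have := (hn₁ n hn).2.1
          have := hv0 n
          positivity
        · rw [if_neg hn] at hq
          exact absurd hq (notMem_empty _)
      · refine Summable.of_nonneg_of_le (fun n => ?_) (fun n => ?_)
          ((Real.summable_nat_pow_inv.2 one_lt_two).mul_left (8 * ((R : ℝ) + 1)))
        · refine sum_nonneg fun q hq => ?_
          by_cases hn : n₁ ≤ n
          · have := (hn₁ n hn).2.1
            have := hv0 n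
            positivity
          · rw [if_neg hn] at hq
            exact absurd hq (notMem_empty _)
        · by_cases hn : n₁ ≤ n
          · obtain ⟨a1, a2, a3, a4, a5⟩ := hn₁ n hn
            have hvn := hv0 n
            simp only [if_pos hn, sum_const, nsmul_eq_mul]
            set L := Real.log (v n) with hL
            have hL0 : 0 < L := by linarith
            set N : ℕ := ⌈((R : ℝ) + 1) * v n⌉₊ with hN
            have hR0 : (0 : ℝ) ≤ R := Nat.cast_nonneg R
            have hNv : v n ≤ N := by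
              have h3 : ((R : ℝ) + 1) * v n ≤ N := Nat.le_ceil _
              nlinarith
            have hNle : (N : ℝ) ≤ 2 * ((R : ℝ) + 1) * v n := by
              have h3 : (N : ℝ) < ((R : ℝ) + 1) * v n + 1 := Nat.ceil_lt_add_one (by positivity)
              nlinarith
            have hNN : N₀ ≤ N := by exact_mod_cast a3.trans hNv
            have hc := hN₀ N hNN ((Icc 1 N).filter (fun q => ¬ Good q)) (fun q hq => by
              obtain ⟨g1, g2⟩ := mem_filter.1 hq
              exact ⟨(mem_Icc.1 g1).1, (mem_Icc.1 g1).2, g2⟩)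
            have hlog : L ≤ Real.log N := Real.log_le_log hvn hNv
            have hc2 : (((Icc 1 N).filter (fun q => ¬ Good q)).card : ℝ) ≤
                4 * ((R : ℝ) + 1) * v n / L ^ (b + k) := by
              refine hc.trans ?_
              calc 2 * (N : ℝ) / (Real.log N) ^ (b + k) ≤ 2 * (N : ℝ) / L ^ (b + k) :=
                    div_le_div_of_nonneg_left (by positivity) (by positivity)
                      (pow_le_pow_left₀ hL0.le hlog _)
                _ ≤ _ := div_le_div_of_nonneg_right (by linarith) (by positivity)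
            calc (((Icc 1 N).filter (fun q => ¬ Good q)).card : ℝ) * (2 * (L ^ b / v n))
                ≤ (4 * ((R : ℝ) + 1) * v n / L ^ (b + k)) * (2 * (L ^ b / v n)) :=
                  mul_le_mul_of_nonneg_right hc2 (by positivity)
              _ = 8 * ((R : ℝ) + 1) * (L ^ b / L ^ (b + k)) := by
                  field_simp
                  ring
              _ ≤ 8 * ((R : ℝ) + 1) * ((n : ℝ) ^ 2)⁻¹ :=
                  mul_le_mul_of_nonneg_left (pow_log_le hδ a4 hk a1) (by positivity)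
          · simp only [if_neg hn, sum_empty]
            positivity
    filter_upwards [hb] with α hα
    filter_upwards [hα, eventually_ge_atTop n₁] with n hn hn1
    rw [if_pos hn1] at hn
    exact hn
  filter_upwards [ae_all_iff.2 key] with α hα hα0
  obtain ⟨R, hR⟩ := exists_nat_ge α
  have hev := hT.eventually (ev_pow b (min (α / 2) 1) (lt_min (by linarith) one_pos))
  filter_upwards [hα R, hev] with n hn hp q hq
  obtain ⟨p1, p2, p3⟩ := hp
  have hvn := hv0 n
  rw [Real.exp_log hvn] at p1 p2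
  obtain ⟨q1, q2⟩ := abs_le.1 hq
  have hm1 : min (α / 2) 1 * v n ≤ v n := by
    have := min_le_right (α / 2) 1
    nlinarith
  have hm2 : min (α / 2) 1 * v n ≤ α / 2 * v n :=
    mul_le_mul_of_nonneg_right (min_le_left _ _) hvn.le
  have hav : α * v n = α / 2 * v n + α / 2 * v n := by ring
  have hapos : 0 ≤ α / 2 * v n := by positivity
  have hqlow : Real.exp (Real.log (v n) / 2) ≤ q := by linarith
  have hq0 : (0 : ℝ) < q := lt_of_lt_of_le (Real.exp_pos _) hqlow
  have hq1 : 1 ≤ q := by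
    have : (0 : ℕ) < q := by exact_mod_cast hq0
    omega
  refine ⟨?_, ?_⟩
  · by_contra hbad
    have hqle : q ≤ ⌈((R : ℝ) + 1) * v n⌉₊ := by
      have h3 : (q : ℝ) ≤ ((R : ℝ) + 1) * v n := by
        have : α * v n ≤ R * v n := mul_le_mul_of_nonneg_right hR hvn.le
        linarith
      exact_mod_cast h3.trans (Nat.le_ceil _)
    have h4 := hn q (mem_filter.2 ⟨mem_Icc.2 ⟨hq1, hqle⟩, hbad⟩)
    have h5 : |α - (q : ℝ) / v n| ≤ (Real.log (v n)) ^ b / v n := by
      rw [show α - (q : ℝ) / v n = -(((q : ℝ) - α * v n) / v n) by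
        field_simp
        ring, abs_neg, abs_div, abs_of_pos hvn]
      exact div_le_div_of_nonneg_right hq hvn.le
    linarith
  · rw [Real.le_log_iff_exp_le hq0]
    exact hqlow

/-- **Second step**: windows of classes -/
theorem step_two {BadL : ℕ → ℕ → Prop} {b k : ℕ} {δ : ℝ} (hδ : 0 < δ) (hk : 2 ≤ δ * k)
    {v : ℕ → ℝ} (hv : ∀ᶠ n : ℕ in atTop, (n : ℝ) ^ δ ≤ Real.log (v n)) {W : ℕ → Finset ℕ}
    (hW : ∀ᶠ n : ℕ in atTop, ((W n).card : ℝ) ≤ 3 * (Real.log (v n)) ^ b ∧ ∀ q ∈ W n,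
      Real.log (v n) / 2 ≤ Real.log q ∧ ∀ F : Finset ℕ, (∀ l ∈ F, l < q ∧ BadL q l) →
        (F.card : ℝ) ≤ q / (Real.log q) ^ (2 * b + k)) :
    ∀ᵐ β : ℝ, ∀ᶠ n : ℕ in atTop, ∀ q ∈ W n, ∀ l < q,
      |(l : ℝ) - β * q| ≤ (Real.log (v n)) ^ b → ¬ BadL q l := by
  classical
  have hT := ev_fast hδ hv
  obtain ⟨n₁, hn₁⟩ : ∃ n₁ : ℕ, ∀ n, n₁ ≤ n → ((n : ℝ) ^ δ ≤ Real.log (v n) ∧
      1 ≤ Real.log (v n) ∧ 1 ≤ n) ∧ ((W n).card : ℝ) ≤ 3 * (Real.log (v n)) ^ b ∧ ∀ q ∈ W n,
      Real.log (v n) / 2 ≤ Real.log q ∧ ∀ F : Finset ℕ, (∀ l ∈ F, l < q ∧ BadL q l) →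
        (F.card : ℝ) ≤ q / (Real.log q) ^ (2 * b + k) := by
    obtain ⟨n₁, hn₁⟩ := eventually_atTop.1 ((((hv.and (hT.eventually_ge_atTop 1)).and
      (eventually_ge_atTop 1))).and hW)
    exact ⟨n₁, fun n hn => by
      obtain ⟨⟨⟨a1, a2⟩, a3⟩, a4⟩ := hn₁ n hn
      exact ⟨⟨a1, a2, a3⟩, a4⟩⟩
  have hqpos : ∀ n, n₁ ≤ n → ∀ q ∈ W n, (0 : ℝ) < q ∧ 0 < Real.log q := by
    intro n hn q hq
    have h1 := (hn₁ n hn).1.2.1
    have h2 := ((hn₁ n hn).2.2 q hq).1
    have h3 : 0 < Real.log q := by linarith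
    refine ⟨?_, h3⟩
    by_contra hcon
    have h4 : (q : ℝ) = 0 := le_antisymm (not_lt.1 hcon) (Nat.cast_nonneg q)
    rw [h4, Real.log_zero] at h3
    exact lt_irrefl _ h3
  have hb : ∀ᵐ β : ℝ, ∀ᶠ n : ℕ in atTop, ∀ x ∈ (if n₁ ≤ n then
      (W n).sigma (fun q => (range q).filter (fun l => BadL q l)) else ∅),
      (Real.log (v n)) ^ b / (x.1 : ℝ) < |β - (x.2 : ℝ) / (x.1 : ℝ)| := by
    refine bc_balls (ι := (_ : ℕ) × ℕ) (fun n => if n₁ ≤ n then
      (W n).sigma (fun q => (range q).filter (fun l => BadL q l)) else ∅)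
      (fun n x => (x.2 : ℝ) / (x.1 : ℝ)) (fun n x => (Real.log (v n)) ^ b / (x.1 : ℝ)) ?_ ?_
    · intro n x hx
      by_cases hn : n₁ ≤ n
      · have := (hn₁ n hn).1.2.1
        positivity
      · rw [if_neg hn] at hx
        exact absurd hx (notMem_empty _)
    · refine Summable.of_nonneg_of_le (fun n => ?_) (fun n => ?_)
        ((Real.summable_nat_pow_inv.2 one_lt_two).mul_left (6 * 2 ^ (2 * b + k)))
      · refine sum_nonneg fun x hx => ?_
        by_cases hn : n₁ ≤ n
        · have := (hn₁ n hn).1.2.1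
          positivity
        · rw [if_neg hn] at hx
          exact absurd hx (notMem_empty _)
      · by_cases hn : n₁ ≤ n
        · obtain ⟨⟨a1, a2, a3⟩, a4, a5⟩ := hn₁ n hn
          simp only [if_pos hn]
          rw [sum_sigma]
          set L := Real.log (v n) with hL
          have hL0 : 0 < L := by linarith
          have hq : ∀ q ∈ W n, ∑ l ∈ (range q).filter (fun l => BadL q l), 2 * (L ^ b / (q : ℝ)) ≤
              2 * 2 ^ (2 * b + k) * (L ^ b / L ^ (2 * b + k)) := by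
            intro q hqW
            obtain ⟨g1, g2⟩ := hqpos n hn q hqW
            obtain ⟨g3, g4⟩ := a5 q hqW
            rw [sum_const, nsmul_eq_mul]
            have g5 := g4 ((range q).filter (fun l => BadL q l)) (fun l hl => by
              obtain ⟨g6, g7⟩ := mem_filter.1 hl
              exact ⟨mem_range.1 g6, g7⟩)
            have g6 : (L / 2) ^ (2 * b + k) ≤ (Real.log q) ^ (2 * b + k) :=
              pow_le_pow_left₀ (by positivity) g3 _
            calc ((((range q).filter (fun l => BadL q l)).card : ℕ) : ℝ) * (2 * (L ^ b / (q : ℝ)))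
                ≤ (q / (Real.log q) ^ (2 * b + k)) * (2 * (L ^ b / (q : ℝ))) :=
                  mul_le_mul_of_nonneg_right g5 (by positivity)
              _ = 2 * L ^ b / (Real.log q) ^ (2 * b + k) := by
                  field_simp
              _ ≤ 2 * L ^ b / (L / 2) ^ (2 * b + k) :=
                  div_le_div_of_nonneg_left (by positivity) (by positivity) g6
              _ = _ := by
                  rw [div_pow]
                  field_simp
          calc ∑ q ∈ W n, ∑ l ∈ (range q).filter (fun l => BadL q l), 2 * (L ^ b / (q : ℝ))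
              ≤ ∑ q ∈ W n, 2 * 2 ^ (2 * b + k) * (L ^ b / L ^ (2 * b + k)) := sum_le_sum hq
            _ = ((W n).card : ℝ) * (2 * 2 ^ (2 * b + k) * (L ^ b / L ^ (2 * b + k))) := by
                rw [sum_const, nsmul_eq_mul]
            _ ≤ (3 * L ^ b) * (2 * 2 ^ (2 * b + k) * (L ^ b / L ^ (2 * b + k))) :=
                mul_le_mul_of_nonneg_right a4 (by positivity)
            _ = 6 * 2 ^ (2 * b + k) * (L ^ (2 * b) / L ^ (2 * b + k)) := by
                rw [two_mul b, pow_add L b b]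
                ring
            _ ≤ 6 * 2 ^ (2 * b + k) * ((n : ℝ) ^ 2)⁻¹ :=
                mul_le_mul_of_nonneg_left (pow_log_le hδ a3 hk a1) (by positivity)
        · simp only [if_neg hn, sum_empty]
          positivity
  filter_upwards [hb] with β hβ
  filter_upwards [hβ, eventually_ge_atTop n₁] with n hn hn1 q hq l hl hnear hbad
  rw [if_pos hn1] at hn
  have h1 := hn ⟨q, l⟩ (mem_sigma.2 ⟨hq, mem_filter.2 ⟨mem_range.2 hl, hbad⟩⟩)
  obtain ⟨g1, g2⟩ := hqpos n hn1 q hq
  have h2 : |β - (l : ℝ) / (q : ℝ)| ≤ (Real.log (v n)) ^ b / (q : ℝ) := by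
    rw [show β - (l : ℝ) / (q : ℝ) = -(((l : ℝ) - β * q) / q) by
      field_simp
      ring, abs_neg, abs_div, abs_of_pos g1]
    exact div_le_div_of_nonneg_right hnear g1.le
  exact absurd h2 (not_le.2 h1)

end Pool.Agent.V1166.WI
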