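import Mathlib
import Pool.Agent.V1166.WI.Two

/-!
# Averages in windows of any length around the multiples of a random number

Let `w ≥ 0` be a function on the integers with `∑_{|D| ≤ N} w D ≤ C N ^ (1 + E + ε)` for all
`ε > 0`. For a fast sequence `v n` and almost all `α`, the sum of `w` over the window
`|D - α * v n| ≤ H` is at most `H * (v n) ^ (E + ε)`, for ALL `1 ≤ H ≤ v n` and all large `n`.
-/

set_option autoImplicit false

namespace Pool.Agent.V1166.WI

open MeasureTheory Filter Finset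

/-- the sum of the values at the distances from `0` -/
lemma sum_natAbs (M : ℕ) (f : ℕ → ℝ) (hf : ∀ k, 0 ≤ f k) :
    ∑ m ∈ Icc (-(M : ℤ)) M, f m.natAbs ≤ 2 * ∑ k ∈ range (M + 1), f k := by
  classical
  have h1 : ∑ m ∈ Icc (-(M : ℤ)) M, f m.natAbs =
      ∑ k ∈ range (M + 1), ∑ m ∈ (Icc (-(M : ℤ)) M).filter (fun m => m.natAbs = k), f m.natAbs := by
    refine (sum_fiberwise_of_maps_to (fun m hm => ?_) _).symm
    rw [mem_Icc] at hm
    rw [mem_range]
    omega
  rw [h1, mul_sum]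
  refine sum_le_sum fun k _ => ?_
  have h2 : ∑ m ∈ (Icc (-(M : ℤ)) M).filter (fun m => m.natAbs = k), f m.natAbs =
      ∑ m ∈ (Icc (-(M : ℤ)) M).filter (fun m => m.natAbs = k), f k :=
    sum_congr rfl fun m hm => by rw [(mem_filter.1 hm).2]
  rw [h2, sum_const, nsmul_eq_mul]
  refine mul_le_mul_of_nonneg_right ?_ (hf k)
  have h3 : (Icc (-(M : ℤ)) M).filter (fun m => m.natAbs = k) ⊆ {(k : ℤ), -(k : ℤ)} := by
    intro m hm
    have h4 := (mem_filter.1 hm).2
    rw [mem_insert, mem_singleton]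
    omega
  have h5 := (card_le_card h3).trans (card_le_two)
  exact_mod_cast h5

/-- the sum of the inverse distances -/
lemma sum_inv (N : ℕ) (D : ℤ) (hD : D ∈ Icc (-(N : ℤ)) N) :
    ∑ t ∈ Icc (-(N : ℤ)) N, 1 / (1 + |(D : ℝ) - t|) ≤ 2 * (1 + Real.log (2 * N + 1)) := by
  classical
  have h1 : ∑ t ∈ Icc (-(N : ℤ)) N, 1 / (1 + |(D : ℝ) - t|) ≤
      ∑ m ∈ Icc (-((2 * N : ℕ) : ℤ)) ((2 * N : ℕ) : ℤ), 1 / (1 + (m.natAbs : ℝ)) := by
    have h2 : ∑ t ∈ Icc (-(N : ℤ)) N, 1 / (1 + |(D : ℝ) - t|) =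
        ∑ m ∈ (Icc (-(N : ℤ)) N).image (fun t => D - t), 1 / (1 + (m.natAbs : ℝ)) := by
      rw [sum_image (fun a _ b _ hab => by
        have hab' : D - a = D - b := hab
        omega)]
      refine sum_congr rfl fun t _ => ?_
      rw [Nat.cast_natAbs, Int.cast_abs]
      push_cast
      rfl
    rw [h2]
    refine sum_le_sum_of_subset_of_nonneg (fun m hm => ?_) fun m _ _ => by positivity
    obtain ⟨t, ht, rfl⟩ := mem_image.1 hm
    rw [mem_Icc] at ht hD ⊢
    push_cast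
    omega
  refine h1.trans ((sum_natAbs (2 * N) (fun k => 1 / (1 + (k : ℝ))) fun k => by positivity).trans ?_)
  refine mul_le_mul_of_nonneg_left ?_ (by norm_num)
  have h3 := harmonic_le_one_add_log (2 * N + 1)
  unfold harmonic at h3
  push_cast at h3
  refine le_trans (le_of_eq ?_) h3
  refine sum_congr rfl fun k _ => ?_
  rw [one_div, add_comm]

/-- **Averages in windows of any length** -/
theorem windows {w : ℤ → ℝ} (hw : ∀ D, 0 ≤ w D) {E : ℝ} (hE : 0 ≤ E)
    (h : ∀ ε : ℝ, 0 < ε → ∃ C : ℝ, 0 < C ∧ ∀ N : ℕ, 1 ≤ N →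
      ∑ D ∈ Icc (-(N : ℤ)) N, w D ≤ C * (N : ℝ) ^ (1 + E + ε)) {v : ℕ → ℝ} (hv1 : ∀ n, 1 ≤ v n)
    (hv : ∀ ε : ℝ, 0 < ε → Summable fun n => (v n) ^ (-ε)) :
    ∀ᵐ α : ℝ, ∀ ε : ℝ, 0 < ε → ∀ᶠ n : ℕ in atTop, ∀ H : ℝ, 1 ≤ H → H ≤ v n → ∀ S : Finset ℤ,
      (∀ D ∈ S, |(D : ℝ) - α * v n| ≤ H) → ∑ D ∈ S, w D ≤ H * (v n) ^ (E + ε) := by
  classical
  have key : ∀ R i : ℕ, ∀ᵐ α : ℝ, |α| ≤ R → ∀ᶠ n : ℕ in atTop, ∀ H : ℝ, 1 ≤ H → H ≤ v n →
      ∀ S : Finset ℤ, (∀ D ∈ S, |(D : ℝ) - α * v n| ≤ H) →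
        ∑ D ∈ S, w D ≤ H * (v n) ^ (E + 1 / ((i : ℝ) + 1)) := by
    intro R i
    set e : ℝ := 1 / ((i : ℝ) + 1) with he
    have he0 : 0 < e := by positivity
    set s : ℝ := e / 4 with hs
    have hs0 : 0 < s := by positivity
    obtain ⟨C, hC0, hC⟩ := h s hs0
    set G : ℕ → ℤ → ℝ := fun N t => ∑ D ∈ Icc (-(N : ℤ)) N, w D * (1 / (1 + |(D : ℝ) - t|)) with hG
    have hG0 : ∀ N t, 0 ≤ G N t := fun N t => sum_nonneg fun D _ => mul_nonneg (hw D) (by positivity)
    have hsum : ∀ N : ℕ, 1 ≤ N → ∑ t ∈ Icc (-(N : ℤ)) N, G N t ≤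
        2 * (1 + 1 / s) * 3 ^ s * C * (N : ℝ) ^ (1 + E + 2 * s) := by
      intro N hN
      have hN1 : (1 : ℝ) ≤ N := by exact_mod_cast hN
      have h1 : ∑ t ∈ Icc (-(N : ℤ)) N, G N t ≤
          ∑ D ∈ Icc (-(N : ℤ)) N, w D * (2 * (1 + Real.log (2 * N + 1))) := by
        rw [hG, sum_comm]
        refine sum_le_sum fun D hD => ?_
        rw [← mul_sum]
        exact mul_le_mul_of_nonneg_left (sum_inv N D hD) (hw D)
      have h2 : 1 + Real.log (2 * N + 1) ≤ (1 + 1 / s) * (3 * (N : ℝ)) ^ s := by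
        have h3 : Real.log (2 * N + 1) ≤ Real.log (3 * N) :=
          Real.log_le_log (by positivity) (by linarith)
        have h4 := Real.log_le_rpow_div (show (0 : ℝ) ≤ 3 * N by positivity) hs0
        have h5 : (1 : ℝ) ≤ (3 * (N : ℝ)) ^ s := Real.one_le_rpow (by linarith) hs0.le
        calc 1 + Real.log (2 * N + 1) ≤ (3 * (N : ℝ)) ^ s + (3 * (N : ℝ)) ^ s / s := by linarith
          _ = _ := by ring
      rw [← sum_mul] at h1
      have h6 : (0 : ℝ) ≤ ∑ D ∈ Icc (-(N : ℤ)) N, w D := sum_nonneg fun D _ => hw D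
      calc ∑ t ∈ Icc (-(N : ℤ)) N, G N t
          ≤ (∑ D ∈ Icc (-(N : ℤ)) N, w D) * (2 * (1 + Real.log (2 * N + 1))) := h1
        _ ≤ (∑ D ∈ Icc (-(N : ℤ)) N, w D) * (2 * ((1 + 1 / s) * (3 * (N : ℝ)) ^ s)) :=
            mul_le_mul_of_nonneg_left (by linarith) h6
        _ ≤ (C * (N : ℝ) ^ (1 + E + s)) * (2 * ((1 + 1 / s) * (3 * (N : ℝ)) ^ s)) :=
            mul_le_mul_of_nonneg_right (hC N hN) (by positivity)
        _ = 2 * (1 + 1 / s) * 3 ^ s * C * ((N : ℝ) ^ (1 + E + s) * (N : ℝ) ^ s) := by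
            rw [Real.mul_rpow (by norm_num) (by positivity)]
            ring
        _ = _ := by
            rw [← Real.rpow_add (by linarith)]
            congr 2
            ring
    -- the bad centres
    set N : ℕ → ℕ := fun n => ⌈((R : ℝ) + 3) * v n⌉₊ with hNdef
    have hNle : ∀ n, ((R : ℝ) + 3) * v n ≤ N n ∧ (N n : ℝ) ≤ ((R : ℝ) + 4) * v n ∧ 1 ≤ N n := by
      intro n
      have h1 := hv1 n
      have h2 : ((R : ℝ) + 3) * v n ≤ N n := Nat.le_ceil _
      have h3 : (N n : ℝ) < ((R : ℝ) + 3) * v n + 1 := Nat.ceil_lt_add_one (by positivity)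
      have hR : (0 : ℝ) ≤ R := Nat.cast_nonneg R
      refine ⟨h2, by linarith, ?_⟩
      have h4 : (0 : ℝ) < N n := lt_of_lt_of_le (by positivity) h2
      exact_mod_cast h4
    set B : ℕ → Finset ℤ := fun n => (Icc (-(N n : ℤ)) (N n)).filter
      (fun t => (2 / 5 : ℝ) * (v n) ^ (E + e) < G (N n) t) with hB
    set K : ℝ := 5 / 2 * (2 * (1 + 1 / s) * 3 ^ s * C * ((R : ℝ) + 4) ^ (1 + E + 2 * s)) with hK
    have hK0 : 0 ≤ K := by positivity
    have hBcard : ∀ n, ((B n).card : ℝ) ≤ K * (v n) ^ (1 - 2 * s) := by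
      intro n
      have hv0 : 0 < v n := by linarith [hv1 n]
      obtain ⟨g1, g2, g3⟩ := hNle n
      have h1 : ((B n).card : ℝ) * ((2 / 5 : ℝ) * (v n) ^ (E + e)) ≤
          ∑ t ∈ Icc (-(N n : ℤ)) (N n), G (N n) t := by
        rw [← nsmul_eq_mul]
        refine (card_nsmul_le_sum (B n) (G (N n)) _ fun t ht => (mem_filter.1 ht).2.le).trans ?_
        exact sum_le_sum_of_subset_of_nonneg (filter_subset _ _) fun t _ _ => hG0 _ t
      have h2 := hsum (N n) g3
      have h3 : (N n : ℝ) ^ (1 + E + 2 * s) ≤ ((R : ℝ) + 4) ^ (1 + E + 2 * s) * (v n) ^ (1 + E + 2 * s) := by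
        rw [← Real.mul_rpow (by positivity) hv0.le]
        exact Real.rpow_le_rpow (by positivity) g2 (by positivity)
      have h4 : ((B n).card : ℝ) * ((2 / 5 : ℝ) * (v n) ^ (E + e)) ≤
          (2 / 5 * K) * (v n) ^ (1 + E + 2 * s) := by
        refine (h1.trans h2).trans ?_
        calc 2 * (1 + 1 / s) * 3 ^ s * C * (N n : ℝ) ^ (1 + E + 2 * s)
            ≤ 2 * (1 + 1 / s) * 3 ^ s * C *
              (((R : ℝ) + 4) ^ (1 + E + 2 * s) * (v n) ^ (1 + E + 2 * s)) :=
              mul_le_mul_of_nonneg_left h3 (by positivity)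
          _ = _ := by
              rw [hK]
              ring
      have h5 : (v n) ^ (1 + E + 2 * s) = (v n) ^ (1 - 2 * s) * (v n) ^ (E + e) := by
        rw [← Real.rpow_add hv0]
        congr 1
        rw [hs]
        ring
      rw [h5] at h4
      have h6 : 0 < (v n) ^ (E + e) := Real.rpow_pos_of_pos hv0 _
      have h7 : (((B n).card : ℝ)) * (v n) ^ (E + e) ≤ (K * (v n) ^ (1 - 2 * s)) * (v n) ^ (E + e) := by
        linarith
      exact le_of_mul_le_mul_right h7 h6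
    have hbc : ∀ᵐ α : ℝ, ∀ᶠ n : ℕ in atTop, ∀ t ∈ B n, 1 / v n < |α - (t : ℝ) / v n| := by
      refine bc_balls B (fun n t => (t : ℝ) / v n) (fun n _ => 1 / v n) ?_ ?_
      · intro n t _
        have := hv1 n
        positivity
      · refine Summable.of_nonneg_of_le (fun n => ?_) (fun n => ?_)
          ((hv (2 * s) (by positivity)).mul_left (2 * K))
        · have := hv1 n
          exact sum_nonneg fun _ _ => by positivity
        · have hv0 : 0 < v n := by linarith [hv1 n]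
          rw [sum_const, nsmul_eq_mul]
          calc ((B n).card : ℝ) * (2 * (1 / v n)) ≤ (K * (v n) ^ (1 - 2 * s)) * (2 * (1 / v n)) :=
                mul_le_mul_of_nonneg_right (hBcard n) (by positivity)
            _ = 2 * K * ((v n) ^ (1 - 2 * s) / v n) := by ring
            _ = _ := by
                congr 1
                rw [Real.rpow_sub hv0, Real.rpow_one, Real.rpow_neg hv0.le]
                field_simp
    filter_upwards [hbc] with α hα hαR
    filter_upwards [hα] with n hn H hH1 hHv S hS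
    have hv0 : 0 < v n := by linarith [hv1 n]
    obtain ⟨g1, g2, g3⟩ := hNle n
    set t : ℤ := round (α * v n) with ht
    have ht1 : |α * v n - t| ≤ 1 / 2 := abs_sub_round _
    have hav : |α * v n| ≤ R * v n := by
      rw [abs_mul, abs_of_pos hv0]
      exact mul_le_mul_of_nonneg_right hαR hv0.le
    have hin : ∀ D : ℤ, |(D : ℝ) - α * v n| ≤ v n + 1 → D ∈ Icc (-(N n : ℤ)) (N n) := by
      intro D hD
      obtain ⟨a1, a2⟩ := abs_le.1 hD
      obtain ⟨a3, a4⟩ := abs_le.1 hav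
      have hvn := hv1 n
      rw [mem_Icc]
      constructor
      · have : -(N n : ℝ) ≤ D := by linarith
        exact_mod_cast this
      · have : (D : ℝ) ≤ N n := by linarith
        exact_mod_cast this
    have htB : t ∉ B n := by
      intro hcon
      have h1 := hn t hcon
      have h2 : |α - (t : ℝ) / v n| ≤ 1 / v n := by
        rw [show α - (t : ℝ) / v n = (α * v n - t) / v n by
          field_simp, abs_div, abs_of_pos hv0]
        exact div_le_div_of_nonneg_right (by linarith) hv0.le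
      linarith
    have htI : t ∈ Icc (-(N n : ℤ)) (N n) := by
      refine hin t ?_
      rw [abs_sub_comm]
      linarith
    have hGt : G (N n) t ≤ (2 / 5 : ℝ) * (v n) ^ (E + e) := by
      by_contra hcon
      exact htB (mem_filter.2 ⟨htI, not_le.1 hcon⟩)
    have hwin : ∀ D ∈ S, w D ≤ (5 / 2 * H) * (w D * (1 / (1 + |(D : ℝ) - t|))) := by
      intro D hD
      have h1 := hS D hD
      have h2 : |(D : ℝ) - t| ≤ H + 1 / 2 := by
        calc |(D : ℝ) - t| = |((D : ℝ) - α * v n) + (α * v n - t)| := by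
              congr 1
              ring
          _ ≤ |(D : ℝ) - α * v n| + |α * v n - t| := abs_add_le _ _
          _ ≤ H + 1 / 2 := add_le_add h1 ht1
      have h3 : 1 + |(D : ℝ) - t| ≤ 5 / 2 * H := by linarith
      have h4 : 0 < 1 + |(D : ℝ) - t| := by positivity
      have h5 : 1 ≤ (5 / 2 * H) * (1 / (1 + |(D : ℝ) - t|)) := by
        rw [mul_one_div, le_div_iff₀ h4, one_mul]
        exact h3
      calc w D = w D * 1 := (mul_one _).symm
        _ ≤ w D * ((5 / 2 * H) * (1 / (1 + |(D : ℝ) - t|))) := mul_le_mul_of_nonneg_left h5 (hw D)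
        _ = _ := by ring
    calc ∑ D ∈ S, w D ≤ ∑ D ∈ S, (5 / 2 * H) * (w D * (1 / (1 + |(D : ℝ) - t|))) :=
          sum_le_sum hwin
      _ = (5 / 2 * H) * ∑ D ∈ S, w D * (1 / (1 + |(D : ℝ) - t|)) := by rw [mul_sum]
      _ ≤ (5 / 2 * H) * G (N n) t := by
          refine mul_le_mul_of_nonneg_left ?_ (by positivity)
          exact sum_le_sum_of_subset_of_nonneg (fun D hD => hin D (by linarith [hS D hD]))
            fun D _ _ => mul_nonneg (hw D) (by positivity)
      _ ≤ (5 / 2 * H) * ((2 / 5 : ℝ) * (v n) ^ (E + e)) :=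
          mul_le_mul_of_nonneg_left hGt (by positivity)
      _ = _ := by ring
  filter_upwards [ae_all_iff.2 fun R => ae_all_iff.2 fun i => key R i] with α hα ε hε
  obtain ⟨i, hi⟩ := exists_nat_one_div_lt hε
  obtain ⟨R, hR⟩ := exists_nat_ge |α|
  filter_upwards [hα R i hR] with n hn H hH1 hHv S hS
  refine (hn H hH1 hHv S hS).trans (mul_le_mul_of_nonneg_left ?_ (by linarith))
  exact Real.rpow_le_rpow_of_exponent_le (hv1 n) (by linarith)

end Pool.Agent.V1166.WI
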