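import Mathlib

/-!
# Bounded averages in intervals and windows around the multiples of a random number

Let `w` be a nonnegative function on the integers with a property `P` whose average over the
integers of the intervals `(N, N + M]`, `|N| ≤ M ^ L`, is bounded for every `L`. For every sequence
`v n ≥ 1` and almost every real number `α`, the function `w` is small at all the integers `t` near
`α * v n`, for all large `n`.
-/

set_option autoImplicit false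

namespace Pool.Agent.V1166.WI

open MeasureTheory Filter Finset

/-- the average of `w` over the `t` with `P t` is bounded in the intervals `(N, N + M]` with
`|N| ≤ M ^ L` -/
def Avg (P : ℤ → Prop) (w : ℤ → ℝ) (L : ℕ) : Prop :=
  ∃ K : ℝ, ∀ (F : Finset ℤ) (N : ℤ) (M : ℕ), 2 ≤ M → |N| ≤ (M : ℤ) ^ L →
    (∀ t ∈ F, N < t ∧ t ≤ N + M ∧ P t) → ∑ t ∈ F, w t ≤ K * M

lemma avg_of {P : ℤ → Prop} [DecidablePred P] {w : ℤ → ℝ} {L : ℕ} (hw : ∀ t, P t → 0 ≤ w t)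
    (h : ∃ K : ℝ, ∀ (N : ℤ) (M : ℕ), 2 ≤ M → |N| ≤ (M : ℤ) ^ L →
      ∑ t ∈ (Ioc N (N + M)).filter P, w t ≤ K * M) : Avg P w L := by
  obtain ⟨K, hK⟩ := h
  refine ⟨K, fun F N M hM hN hF => le_trans ?_ (hK N M hM hN)⟩
  refine sum_le_sum_of_subset_of_nonneg (fun t ht => ?_) fun t ht _ => hw t (mem_filter.1 ht).2
  obtain ⟨h1, h2, h3⟩ := hF t ht
  exact mem_filter.2 ⟨mem_Ioc.2 ⟨h1, h2⟩, h3⟩

/-- the bad `α` in `[j, j + 1]` -/
def Bad (P : ℤ → Prop) (w : ℤ → ℝ) (v y : ℕ → ℝ) (C : ℕ) (j : ℤ) (n : ℕ) : Set ℝ :=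
  {α | (j : ℝ) ≤ α ∧ α ≤ j + 1 ∧ ∃ t : ℤ, |(t : ℝ) - α * v n| ≤ (n : ℝ) ^ C ∧ P t ∧ y n < w t}

lemma bad_le {P : ℤ → Prop} {w : ℤ → ℝ} (h : ∀ L : ℕ, Avg P w L) {v y : ℕ → ℝ} (hv : ∀ n, 1 ≤ v n) (hy : ∀ n, 0 < y n)
    (C : ℕ) (j : ℤ) : ∃ K : ℝ, 0 ≤ K ∧ ∀ n, volume (Bad P w v y C j n) ≤
      ENNReal.ofReal (K * ((n : ℝ) ^ C / v n * (v n + (n : ℝ) ^ C) / y n)) := by
  classical
  obtain ⟨K, hK⟩ := h (j.natAbs + 2)
  refine ⟨8 * |K|, by positivity, fun n => ?_⟩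
  have hv1 := hv n
  have hy1 := hy n
  have hv0 : 0 < v n := by linarith
  have hn0 : (0 : ℝ) ≤ (n : ℝ) ^ C := by positivity
  set N : ℤ := ⌊(j : ℝ) * v n - (n : ℝ) ^ C⌋ - 1 with hNdef
  set M : ℕ := ⌈v n⌉₊ + 2 * n ^ C + 2 with hMdef
  have hM1 : 2 ≤ M := by omega
  have hce : v n ≤ (⌈v n⌉₊ : ℝ) := Nat.le_ceil _
  have hce2 : (⌈v n⌉₊ : ℝ) < v n + 1 := Nat.ceil_lt_add_one hv0.le
  have hMr : (M : ℝ) = (⌈v n⌉₊ : ℝ) + 2 * (n : ℝ) ^ C + 2 := by
    rw [hMdef]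
    push_cast
    ring
  have hfl : (⌊(j : ℝ) * v n - (n : ℝ) ^ C⌋ : ℝ) ≤ (j : ℝ) * v n - (n : ℝ) ^ C := Int.floor_le _
  have hfl2 : (j : ℝ) * v n - (n : ℝ) ^ C < (⌊(j : ℝ) * v n - (n : ℝ) ^ C⌋ : ℝ) + 1 :=
    Int.lt_floor_add_one _
  have hNr : (N : ℝ) = (⌊(j : ℝ) * v n - (n : ℝ) ^ C⌋ : ℝ) - 1 := by
    rw [hNdef]
    push_cast
    ring
  -- the interval is admissible
  have hNM : |N| ≤ (M : ℤ) ^ (j.natAbs + 2) := by
    have h1 : |(N : ℝ)| ≤ ((j.natAbs : ℝ) + 1) * M := by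
      have h2 : |(j : ℝ) * v n| ≤ (j.natAbs : ℝ) * M := by
        rw [abs_mul, abs_of_pos hv0, Nat.cast_natAbs, Int.cast_abs]
        refine mul_le_mul_of_nonneg_left ?_ (abs_nonneg _)
        rw [hMr]
        linarith
      have h3 := abs_le.1 h2
      rw [abs_le]
      constructor
      · rw [hNr, hMr] at *
        nlinarith [h3.1]
      · rw [hNr, hMr] at *
        nlinarith [h3.2]
    have h4 : ((j.natAbs : ℝ) + 1) * M ≤ (M : ℝ) ^ (j.natAbs + 2) := by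
      have h5 : ((j.natAbs : ℝ) + 1) ≤ (M : ℝ) ^ (j.natAbs + 1) := by
        have h6 : (j.natAbs + 1 : ℕ) ≤ M ^ (j.natAbs + 1) := by
          refine (Nat.lt_two_pow_self).le.trans (Nat.pow_le_pow_left (by omega) _)
        exact_mod_cast h6
      rw [pow_succ]
      exact mul_le_mul_of_nonneg_right h5 (by positivity)
    have h7 : |(N : ℝ)| ≤ (M : ℝ) ^ (j.natAbs + 2) := h1.trans h4
    exact_mod_cast h7
  set F : Finset ℤ := (Ioc N (N + M)).filter (fun t => P t ∧ y n < w t) with hF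
  have hFsum : ∑ t ∈ F, w t ≤ K * M := by
    refine hK F N M hM1 hNM fun t ht => ?_
    obtain ⟨h1, h2⟩ := mem_filter.1 ht
    exact ⟨(mem_Ioc.1 h1).1, (mem_Ioc.1 h1).2, h2.1⟩
  have hFc : (F.card : ℝ) ≤ |K| * M / y n := by
    rw [le_div_iff₀ hy1]
    have h1 : (F.card : ℝ) * y n ≤ ∑ t ∈ F, w t := by
      rw [← nsmul_eq_mul]
      exact card_nsmul_le_sum _ _ _ fun t ht => (mem_filter.1 ht).2.2.le
    refine h1.trans (hFsum.trans ?_)
    exact mul_le_mul_of_nonneg_right (le_abs_self K) (by positivity)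
  -- the cover
  have hsub : Bad P w v y C j n ⊆ ⋃ t ∈ F, Metric.closedBall ((t : ℝ) / v n) ((n : ℝ) ^ C / v n) := by
    rintro α ⟨ha1, ha2, t, ht, hP, hyw⟩
    obtain ⟨ht1, ht2⟩ := abs_le.1 ht
    have hja : (j : ℝ) * v n ≤ α * v n := mul_le_mul_of_nonneg_right ha1 hv0.le
    have hja2 : α * v n ≤ ((j : ℝ) + 1) * v n := mul_le_mul_of_nonneg_right ha2 hv0.le
    have htF : t ∈ F := by
      rw [hF, mem_filter, mem_Ioc]
      refine ⟨⟨?_, ?_⟩, hP, hyw⟩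
      · have : (N : ℝ) < (t : ℝ) := by rw [hNr]; linarith
        exact_mod_cast this
      · have : (t : ℝ) ≤ (N : ℝ) + M := by rw [hNr, hMr]; nlinarith
        exact_mod_cast this
    refine Set.mem_iUnion₂.2 ⟨t, htF, ?_⟩
    rw [Metric.mem_closedBall, Real.dist_eq, show α - (t : ℝ) / v n = -(((t : ℝ) - α * v n) / v n) by
      field_simp
      ring, abs_neg, abs_div, abs_of_pos hv0]
    exact div_le_div_of_nonneg_right ht hv0.le
  calc volume (Bad P w v y C j n)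
      ≤ volume (⋃ t ∈ F, Metric.closedBall ((t : ℝ) / v n) ((n : ℝ) ^ C / v n)) :=
        measure_mono hsub
    _ ≤ ∑ t ∈ F, volume (Metric.closedBall ((t : ℝ) / v n) ((n : ℝ) ^ C / v n)) :=
        measure_biUnion_finset_le _ _
    _ = ∑ t ∈ F, ENNReal.ofReal (2 * ((n : ℝ) ^ C / v n)) := by
        refine sum_congr rfl fun t _ => ?_
        rw [Real.volume_closedBall]
    _ = ENNReal.ofReal ((F.card : ℝ) * (2 * ((n : ℝ) ^ C / v n))) := by
        rw [sum_const, nsmul_eq_mul, ENNReal.ofReal_mul (Nat.cast_nonneg _), ENNReal.ofReal_natCast]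
    _ ≤ _ := by
        refine ENNReal.ofReal_le_ofReal ?_
        have hM4 : (M : ℝ) ≤ 4 * (v n + (n : ℝ) ^ C) := by
          rw [hMr]
          linarith
        have h2 : (0 : ℝ) ≤ 2 * ((n : ℝ) ^ C / v n) := by positivity
        calc (F.card : ℝ) * (2 * ((n : ℝ) ^ C / v n))
            ≤ (|K| * (4 * (v n + (n : ℝ) ^ C)) / y n) * (2 * ((n : ℝ) ^ C / v n)) := by
              refine mul_le_mul_of_nonneg_right (hFc.trans ?_) h2
              refine div_le_div_of_nonneg_right ?_ hy1.le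
              exact mul_le_mul_of_nonneg_left hM4 (abs_nonneg _)
          _ = 8 * |K| * ((n : ℝ) ^ C / v n * (v n + (n : ℝ) ^ C) / y n) := by
              field_simp
              ring

/-- **The windows.** -/
theorem core {P : ℤ → Prop} {w : ℤ → ℝ} (h : ∀ L : ℕ, Avg P w L) {v y : ℕ → ℝ} (hv : ∀ n, 1 ≤ v n) (hy : ∀ n, 0 < y n)
    (C : ℕ) (hs : Summable fun n : ℕ => (n : ℝ) ^ C / v n * (v n + (n : ℝ) ^ C) / y n) :
    ∀ᵐ α : ℝ, ∀ᶠ n : ℕ in atTop, ∀ t : ℤ, |(t : ℝ) - α * v n| ≤ (n : ℝ) ^ C → P t → w t ≤ y n := by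
  have key : ∀ j : ℤ, ∀ᵐ α : ℝ, ∀ᶠ n : ℕ in atTop, α ∉ Bad P w v y C j n := by
    intro j
    obtain ⟨K, hK0, hK⟩ := bad_le h hv hy C j
    refine ae_eventually_notMem (ne_top_of_le_ne_top ?_ (ENNReal.tsum_le_tsum hK))
    exact (hs.mul_left K).tsum_ofReal_ne_top
  filter_upwards [ae_all_iff.2 key] with α hα
  filter_upwards [hα ⌊α⌋] with n hn t ht hP
  by_contra hcon
  exact hn ⟨Int.floor_le α, (Int.lt_floor_add_one α).le, t, ht, hP, not_le.1 hcon⟩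

/-- all the moments are bounded -/
theorem moments {P : ℤ → Prop} {w : ℤ → ℝ} (hw : ∀ t, P t → 0 ≤ w t)
    (h : ∀ k L : ℕ, Avg P (fun t => w t ^ k) L) {v : ℕ → ℝ} (hv : ∀ n, 1 ≤ v n) :
    ∀ᵐ α : ℝ, ∀ (C : ℕ) (ε : ℝ), 0 < ε → ∀ᶠ n : ℕ in atTop, ∀ t : ℤ,
      |(t : ℝ) - α * v n| ≤ (n : ℝ) ^ C → P t → w t ≤ (n : ℝ) ^ ε := by
  have key : ∀ C m : ℕ, ∀ᵐ α : ℝ, ∀ᶠ n : ℕ in atTop, ∀ t : ℤ,
      |(t : ℝ) - α * v n| ≤ (n : ℝ) ^ C → P t →
        w t ^ ((m + 1) * (2 * C + 2)) ≤ ((n : ℝ) + 1) ^ (2 * C + 2) := by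
    intro C m
    refine core (y := fun n => ((n : ℝ) + 1) ^ (2 * C + 2)) (fun L => h _ L) hv
      (fun n => by positivity) C ?_
    refine Summable.of_nonneg_of_le (fun n => ?_) (fun n => ?_)
      ((Real.summable_nat_pow_inv.2 one_lt_two).comp_injective (add_left_injective 1) |>.mul_left 2)
    · have := hv n
      positivity
    · have hv1 := hv n
      have hv0 : 0 < v n := by linarith
      have h1 : (n : ℝ) ^ C / v n * (v n + (n : ℝ) ^ C) ≤ 2 * ((n : ℝ) + 1) ^ (2 * C) := by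
        have h2 : (n : ℝ) ^ C / v n * (v n + (n : ℝ) ^ C) =
            (n : ℝ) ^ C + (n : ℝ) ^ C * (n : ℝ) ^ C / v n := by
          field_simp
        have h3 : (n : ℝ) ^ C ≤ ((n : ℝ) + 1) ^ (2 * C) :=
          (pow_le_pow_left₀ (by positivity) (by linarith) C).trans
            (pow_le_pow_right₀ (by linarith [(Nat.cast_nonneg n : (0 : ℝ) ≤ n)]) (by omega))
        have h4 : (n : ℝ) ^ C * (n : ℝ) ^ C / v n ≤ ((n : ℝ) + 1) ^ (2 * C) := by
          refine (div_le_self (by positivity) hv1).trans ?_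
          rw [← pow_add, ← two_mul]
          exact pow_le_pow_left₀ (by positivity) (by linarith) _
        rw [h2]
        linarith
      calc (n : ℝ) ^ C / v n * (v n + (n : ℝ) ^ C) / ((n : ℝ) + 1) ^ (2 * C + 2)
          ≤ 2 * ((n : ℝ) + 1) ^ (2 * C) / ((n : ℝ) + 1) ^ (2 * C + 2) :=
            div_le_div_of_nonneg_right h1 (by positivity)
        _ = 2 * (((n : ℝ) + 1) ^ 2)⁻¹ := by
            rw [pow_add]
            field_simp
        _ = _ := by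
            simp [Function.comp]
  filter_upwards [ae_all_iff.2 fun C => ae_all_iff.2 (key C)] with α hα C ε hε
  obtain ⟨m, hm⟩ := exists_nat_one_div_lt (show (0 : ℝ) < ε / 2 by positivity)
  filter_upwards [hα C m, eventually_ge_atTop 2] with n hn hn2 t ht hP
  have h1 := hn t ht hP
  have h0 := hw t hP
  have hn2' : (2 : ℝ) ≤ n := by exact_mod_cast hn2
  have h2 : w t ^ (m + 1) ≤ (n : ℝ) + 1 := by
    refine le_of_pow_le_pow_left₀ (n := 2 * C + 2) (by omega) (by positivity) ?_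
    rw [← pow_mul]
    exact h1
  have h3 : w t ^ (m + 1) ≤ (n : ℝ) ^ 2 := by nlinarith
  have h4 : w t ≤ ((n : ℝ) ^ 2) ^ ((1 : ℝ) / (m + 1)) := by
    have h5 : w t = (w t ^ (m + 1)) ^ ((1 : ℝ) / (m + 1)) := by
      rw [← Real.rpow_natCast, ← Real.rpow_mul h0]
      push_cast
      rw [mul_one_div_cancel (by positivity), Real.rpow_one]
    rw [h5]
    exact Real.rpow_le_rpow (by positivity) h3 (by positivity)
  refine h4.trans ?_
  rw [← Real.rpow_natCast, ← Real.rpow_mul (by positivity)]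
  refine Real.rpow_le_rpow_of_exponent_le (by linarith) ?_
  push_cast
  linarith

/-- one average is bounded, and the sequence grows at least like `n ^ C` -/
theorem average {P : ℤ → Prop} {w : ℤ → ℝ} (h : ∀ L : ℕ, Avg P w L) {v : ℕ → ℝ} (hv : ∀ n, 1 ≤ v n) :
    ∀ᵐ α : ℝ, ∀ (C : ℕ) (ε : ℝ), 0 < ε → (∀ᶠ n : ℕ in atTop, (n : ℝ) ^ C ≤ v n) →
      ∀ᶠ n : ℕ in atTop, ∀ t : ℤ,
        |(t : ℝ) - α * v n| ≤ (n : ℝ) ^ C → P t → w t ≤ (n : ℝ) ^ ((C : ℝ) + 1 + ε) := by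
  have key : ∀ C m : ℕ, (∀ᶠ n : ℕ in atTop, (n : ℝ) ^ C ≤ v n) → ∀ᵐ α : ℝ,
      ∀ᶠ n : ℕ in atTop, ∀ t : ℤ, |(t : ℝ) - α * v n| ≤ (n : ℝ) ^ C → P t →
        w t ≤ ((n : ℝ) + 1) ^ ((C : ℝ) + 1 + 1 / (m + 1)) := by
    intro C m hC
    refine core (y := fun n => ((n : ℝ) + 1) ^ ((C : ℝ) + 1 + 1 / (m + 1))) h hv
      (fun n => by positivity) C ?_
    have hs0 : Summable fun n : ℕ => 2 * (((n : ℝ) + 1) ^ ((1 : ℝ) + 1 / (m + 1)))⁻¹ := by
      have h1 := (Real.summable_nat_rpow_inv.2 (show (1 : ℝ) < 1 + 1 / ((m : ℝ) + 1) by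
        have : (0 : ℝ) < 1 / ((m : ℝ) + 1) := by positivity
        linarith)).comp_injective (add_left_injective 1)
      refine (h1.mul_left 2).congr fun n => ?_
      simp [Function.comp]
    refine summable_of_isBigO_nat hs0 ?_
    refine Asymptotics.IsBigO.of_bound 1 ?_
    filter_upwards [hC] with n hn
    have hv1 := hv n
    have hv0 : 0 < v n := by linarith
    rw [Real.norm_of_nonneg (by positivity), Real.norm_of_nonneg (by positivity), one_mul]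
    have h2 : (n : ℝ) ^ C / v n * (v n + (n : ℝ) ^ C) ≤ 2 * ((n : ℝ) + 1) ^ (C : ℝ) := by
      rw [Real.rpow_natCast]
      have h3 : (n : ℝ) ^ C / v n * (v n + (n : ℝ) ^ C) ≤ (n : ℝ) ^ C / v n * (2 * v n) :=
        mul_le_mul_of_nonneg_left (by linarith) (by positivity)
      have h4 : (n : ℝ) ^ C / v n * (2 * v n) = 2 * (n : ℝ) ^ C := by
        field_simp
      have h5 : (n : ℝ) ^ C ≤ ((n : ℝ) + 1) ^ C := pow_le_pow_left₀ (by positivity) (by linarith) C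
      linarith
    calc (n : ℝ) ^ C / v n * (v n + (n : ℝ) ^ C) / ((n : ℝ) + 1) ^ ((C : ℝ) + 1 + 1 / (m + 1))
        ≤ 2 * ((n : ℝ) + 1) ^ (C : ℝ) / ((n : ℝ) + 1) ^ ((C : ℝ) + 1 + 1 / (m + 1)) :=
          div_le_div_of_nonneg_right h2 (by positivity)
      _ = 2 * (((n : ℝ) + 1) ^ ((1 : ℝ) + 1 / (m + 1)))⁻¹ := by
          rw [show (C : ℝ) + 1 + 1 / ((m : ℝ) + 1) = (C : ℝ) + (1 + 1 / ((m : ℝ) + 1)) by ring,
            Real.rpow_add (by positivity)]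
          field_simp
  have key2 : ∀ C m : ℕ, ∀ᵐ α : ℝ, (∀ᶠ n : ℕ in atTop, (n : ℝ) ^ C ≤ v n) →
      ∀ᶠ n : ℕ in atTop, ∀ t : ℤ, |(t : ℝ) - α * v n| ≤ (n : ℝ) ^ C → P t →
        w t ≤ ((n : ℝ) + 1) ^ ((C : ℝ) + 1 + 1 / (m + 1)) := by
    intro C m
    by_cases hC : ∀ᶠ n : ℕ in atTop, (n : ℝ) ^ C ≤ v n
    · filter_upwards [key C m hC] with α hα _
      exact hα
    · exact Eventually.of_forall fun α hα => absurd hα hC
  filter_upwards [ae_all_iff.2 fun C => ae_all_iff.2 (key2 C)] with α hα C ε hε hC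
  obtain ⟨m, hm⟩ := exists_nat_one_div_lt (show (0 : ℝ) < ε / 2 by positivity)
  have hlim : ∀ᶠ n : ℕ in atTop, ((n : ℝ) + 1) ^ ((C : ℝ) + 1 + ε / 2) ≤
      (n : ℝ) ^ ((C : ℝ) + 1 + ε) := by
    have h1 : Tendsto (fun n : ℕ => (n : ℝ) ^ (ε / 2)) atTop atTop :=
      (tendsto_rpow_atTop (by positivity)).comp tendsto_natCast_atTop_atTop
    filter_upwards [h1.eventually_ge_atTop ((2 : ℝ) ^ ((C : ℝ) + 1 + ε / 2)),
      eventually_ge_atTop 1] with n hn hn1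
    have hn1' : (1 : ℝ) ≤ n := by exact_mod_cast hn1
    calc ((n : ℝ) + 1) ^ ((C : ℝ) + 1 + ε / 2) ≤ (2 * (n : ℝ)) ^ ((C : ℝ) + 1 + ε / 2) :=
          Real.rpow_le_rpow (by positivity) (by linarith) (by positivity)
      _ = (2 : ℝ) ^ ((C : ℝ) + 1 + ε / 2) * (n : ℝ) ^ ((C : ℝ) + 1 + ε / 2) :=
          Real.mul_rpow (by norm_num) (by positivity)
      _ ≤ (n : ℝ) ^ (ε / 2) * (n : ℝ) ^ ((C : ℝ) + 1 + ε / 2) :=
          mul_le_mul_of_nonneg_right hn (by positivity)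
      _ = (n : ℝ) ^ ((C : ℝ) + 1 + ε) := by
          rw [← Real.rpow_add (by positivity)]
          congr 1
          ring
  filter_upwards [hα C m hC, hlim] with n hn hn2 t ht hP
  refine (hn t ht hP).trans (le_trans ?_ hn2)
  refine Real.rpow_le_rpow_of_exponent_le ?_ ?_
  · linarith [(Nat.cast_nonneg n : (0 : ℝ) ≤ n)]
  · linarith

end Pool.Agent.V1166.WI
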