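import Mathlib
import Pool.Agent.V1166.WI.Core
import Pool.Agent.TH841.PT.Sel
import Pool.Agent.TH841.PT.Fin1
import Pool.Agent.TH841.SH.Wt

/-!
# The averages of the Selmer groups of twists, and a comparison of weights
-/

set_option autoImplicit false

namespace Pool.Agent.V1166.WI

open MeasureTheory Filter Finset Polynomial

lemma countable_poly : Countable ℤ[X] :=
  Cardinal.mk_le_aleph0_iff.1 (Polynomial.cardinalMk_le_max.trans (by simp))

/-- an implication with a hypothesis that does not depend on the point -/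
lemma ae_imp {H : Prop} {Q : ℝ → Prop} (h : H → ∀ᵐ α : ℝ, Q α) : ∀ᵐ α : ℝ, H → Q α := by
  by_cases hH : H
  · filter_upwards [h hH] with α hα _
    exact hα
  · exact Eventually.of_forall fun α hα => absurd hα hH

/-- all the moments of the orders of the 2-Selmer groups of the twists by `D(t)` -/
lemma avg_twist {A B e1 e2 e3 : ℤ} (hE : 4 * A ^ 3 + 27 * B ^ 2 ≠ 0)
    (he : ∀ x : ℤ, x ^ 3 + A * x + B = (x - e1) * (x - e2) * (x - e3)) (D : ℤ[X]) (hD : D ≠ 0)
    (k L : ℕ) : Avg (fun t => D.eval t ≠ 0)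
      (fun t => ((Pool.Agent.W307.SE.SelR ((D.eval t) ^ 2 * A) ((D.eval t) ^ 3 * B)).ncard : ℝ) ^ k)
      L := by
  classical
  refine avg_of (fun t _ => by positivity) ?_
  obtain ⟨C, hC⟩ := Pool.Agent.TH841.PT.sel_poly Pool.Agent.TH841.PT.avsq hE he D hD k L
  refine ⟨C, fun N M hM hN => ?_⟩
  convert hC N M (by omega) hN

open scoped Classical in
/-- the groups killed by powers of two, from the elements killed by two -/
lemma wt_le_one {W : WeierstrassCurve ℚ} (hfin : Finite (Pool.Agent.TH841.SH.D.ShaTor W (2 ^ 1)))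
    {k : ℕ} (hk : 1 ≤ k) :
    (2 : ℝ) ^ Pool.Agent.TH841.SH.D.rk W *
      (Nat.card (Pool.Agent.TH841.SH.D.ShaTor W (2 ^ k)) : ℝ) ^ ((1 : ℝ) / k) ≤
    (2 : ℝ) ^ Pool.Agent.TH841.SH.D.rk W *
      (Nat.card (Pool.Agent.TH841.SH.D.ShaTor W (2 ^ 1)) : ℝ) ^ ((1 : ℝ) / (1 : ℕ)) := by
  have e1 : Pool.Agent.TH841.SH.D.ShaTor W (2 ^ 1) ≃
      {x : Pool.Agent.W262.SH.Sha W // x + x = 0} :=
    (Pool.Agent.TH841.SH.eTor W (2 ^ 1)).trans
      (Equiv.subtypeEquivRight fun x => by rw [pow_one, two_nsmul])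
  have hB : Pool.Agent.TH841.SH.Bd W ((2 : ℝ) ^ Pool.Agent.TH841.SH.D.rk W *
      (Nat.card (Pool.Agent.TH841.SH.D.ShaTor W (2 ^ 1)) : ℝ) ^ ((1 : ℝ) / (1 : ℕ))) := by
    refine ⟨Finite.of_equiv _ e1, le_of_eq ?_⟩
    rw [Nat.card_congr e1, Nat.cast_one, div_one, Real.rpow_one]
    rfl
  exact hB.wt_le hk

end Pool.Agent.V1166.WI
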