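import Mathlib

/-!
# Sums over the pairs of integers and sums over the coprime pairs
-/

set_option autoImplicit false

namespace Pool.Agent.V1166.WI

open Finset

/-- the integer points of the square -/
noncomputable def Sq (T : ℕ) : Finset (ℤ × ℤ) := Icc (-(T : ℤ)) T ×ˢ Icc (-(T : ℤ)) T

lemma mem_Sq {T : ℕ} {t : ℤ × ℤ} : t ∈ Sq T ↔ |t.1| ≤ T ∧ |t.2| ≤ T := by
  unfold Sq
  rw [mem_product, mem_Icc, mem_Icc, abs_le, abs_le]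

lemma abs_div_le {a : ℤ} {g T : ℕ} (hg : 0 < g) (hd : (g : ℤ) ∣ a) (ha : |a| ≤ (T : ℤ)) :
    |a / (g : ℤ)| ≤ ((T / g : ℕ) : ℤ) := by
  obtain ⟨c, rfl⟩ := hd
  have hg' : (g : ℤ) ≠ 0 := by exact_mod_cast hg.ne'
  rw [Int.mul_ediv_cancel_left _ hg']
  rw [abs_mul, Nat.abs_cast] at ha
  have h1 : g * c.natAbs ≤ T := by
    have : ((g * c.natAbs : ℕ) : ℤ) ≤ (T : ℤ) := by
      push_cast
      exact ha
    exact_mod_cast this
  have h2 : c.natAbs ≤ T / g := by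
    rw [Nat.le_div_iff_mul_le hg]
    linarith [mul_comm g c.natAbs]
  rw [← Int.natCast_natAbs]
  exact_mod_cast h2

/-- the sum over all pairs, sorted by the greatest common divisor -/
lemma gcd_sum (f : ℕ → ℤ × ℤ → ℝ) (hf : ∀ g t, 0 ≤ f g t) (F : Finset (ℤ × ℤ)) (T : ℕ)
    (hF : ∀ t ∈ F, |t.1| ≤ T ∧ |t.2| ≤ T ∧ t.1 ≠ 0) :
    ∑ t ∈ F, f (t.1.gcd t.2) (t.1 / (t.1.gcd t.2 : ℤ), t.2 / (t.1.gcd t.2 : ℤ)) ≤
      ∑ g ∈ Icc 1 T, ∑ t ∈ Sq (T / g), f g t := by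
  classical
  rw [sum_sigma']
  obtain ⟨e, he⟩ : ∃ e : ℤ × ℤ → (_ : ℕ) × (ℤ × ℤ), e = fun t =>
    ⟨t.1.gcd t.2, (t.1 / (t.1.gcd t.2 : ℤ), t.2 / (t.1.gcd t.2 : ℤ))⟩ := ⟨_, rfl⟩
  have hback : ∀ t : ℤ × ℤ, t = (((e t).1 : ℤ) * (e t).2.1, ((e t).1 : ℤ) * (e t).2.2) := by
    intro t
    rw [he]
    exact Prod.ext (Int.mul_ediv_cancel' (Int.gcd_dvd_left _ _)).symm
      (Int.mul_ediv_cancel' (Int.gcd_dvd_right _ _)).symm
  have hinj : Set.InjOn e (F : Set (ℤ × ℤ)) := by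
    intro s _ t _ hst
    rw [hback s, hback t, hst]
  have h1 : ∑ t ∈ F, f (t.1.gcd t.2) (t.1 / (t.1.gcd t.2 : ℤ), t.2 / (t.1.gcd t.2 : ℤ)) =
      ∑ x ∈ F.image e, f x.1 x.2 := by
    rw [sum_image hinj, he]
  rw [h1]
  refine sum_le_sum_of_subset_of_nonneg ?_ fun x _ _ => hf _ _
  intro x hx
  obtain ⟨t, ht, rfl⟩ := mem_image.1 hx
  obtain ⟨h2, h3, h4⟩ := hF t ht
  have hg : 0 < t.1.gcd t.2 := Int.gcd_pos_of_ne_zero_left _ h4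
  have hgT : t.1.gcd t.2 ≤ T := by
    have h5 : t.1.gcd t.2 ≤ t.1.natAbs := Nat.le_of_dvd (Int.natAbs_pos.2 h4)
      (Int.natAbs_dvd_natAbs.2 (Int.gcd_dvd_left t.1 t.2))
    have h6 : (t.1.natAbs : ℤ) ≤ T := by rwa [Int.natCast_natAbs]
    have h7 : t.1.natAbs ≤ T := by exact_mod_cast h6
    exact h5.trans h7
  rw [he, mem_sigma]
  exact ⟨mem_Icc.2 ⟨hg, hgT⟩, mem_Sq.2 ⟨abs_div_le hg (Int.gcd_dvd_left _ _) h2,
    abs_div_le hg (Int.gcd_dvd_right _ _) h3⟩⟩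

/-- the square as a translate of the positive square -/
lemma sq_sum (g : ℤ × ℤ → ℝ) (T : ℕ) : ∑ t ∈ Sq T, g t =
    ∑ t ∈ Icc 1 (2 * T + 1) ×ˢ Icc 1 (2 * T + 1), g (-(T : ℤ) - 1 + (t.1 : ℤ),
      -(T : ℤ) - 1 + (t.2 : ℤ)) := by
  symm
  apply sum_bij (fun (t : ℕ × ℕ) _ => ((-(T : ℤ) - 1 + (t.1 : ℤ), -(T : ℤ) - 1 + (t.2 : ℤ)) :
    ℤ × ℤ))
  · intro t ht
    rw [mem_product, mem_Icc, mem_Icc] at ht
    rw [mem_Sq, abs_le, abs_le]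
    constructor <;> simp only <;> omega
  · intro t _ t' _ htt
    simp only [Prod.mk.injEq] at htt
    ext <;> omega
  · intro t ht
    rw [mem_Sq, abs_le, abs_le] at ht
    refine ⟨((t.1 + T + 1).toNat, (t.2 + T + 1).toNat), ?_, ?_⟩
    · rw [mem_product, mem_Icc, mem_Icc]
      simp only
      omega
    · ext <;> simp only <;> omega
  · intro t _
    rfl

lemma omega_mul (d : ℤ) (hd : d ≠ 0) (g : ℕ) (hg : g ≠ 0) :
    (128 : ℝ) ^ (d * g).natAbs.primeFactors.card ≤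
      128 ^ d.natAbs.primeFactors.card * 128 ^ g.primeFactors.card := by
  rw [← pow_add]
  refine pow_le_pow_right₀ (by norm_num) ?_
  rw [Int.natAbs_mul, Int.natAbs_natCast, Nat.primeFactors_mul (Int.natAbs_ne_zero.2 hd) hg]
  exact card_union_le _ _

end Pool.Agent.V1166.WI
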