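import Mathlib
import Pool.Agent.V1166.WI.Core

/-!
# Bounded averages in squares and windows around the multiples of a random vector

Let `w` be a nonnegative function on the integer points of the plane with a property `P` whose average
over the squares `[-T, T] ^ 2` is bounded. For every sequence `v n ≥ 1` and almost every real vector
`α`, the function `w` is small at all the integer points near `α * v n`, for all large `n`.
-/

set_option autoImplicit false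

namespace Pool.Agent.V1166.WI

open MeasureTheory Filter Finset

/-- the average of `w` over the `t` with `P t` is bounded in the squares `[-T, T] ^ 2` -/
def AvgP (P : ℤ × ℤ → Prop) (w : ℤ × ℤ → ℝ) : Prop :=
  ∃ K : ℝ, ∀ (F : Finset (ℤ × ℤ)) (T : ℕ), 1 ≤ T →
    (∀ t ∈ F, |t.1| ≤ T ∧ |t.2| ≤ T ∧ P t) → ∑ t ∈ F, w t ≤ K * (T : ℝ) ^ 2

/-- the bad vectors in the square `[-R, R] ^ 2` -/
def BadP (P : ℤ × ℤ → Prop) (w : ℤ × ℤ → ℝ) (v y : ℕ → ℝ) (C R n : ℕ) : Set (ℝ × ℝ) :=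
  {α | |α.1| ≤ R ∧ |α.2| ≤ R ∧ ∃ t : ℤ × ℤ, |(t.1 : ℝ) - α.1 * v n| ≤ (n : ℝ) ^ C ∧
    |(t.2 : ℝ) - α.2 * v n| ≤ (n : ℝ) ^ C ∧ P t ∧ y n < w t}

lemma near_le {a x r v R : ℝ} (ha : |a| ≤ R) (hv : 0 ≤ v) (h : |x - a * v| ≤ r) :
    |x| ≤ R * v + r := by
  have h1 : |a * v| ≤ R * v := by
    rw [abs_mul, abs_of_nonneg hv]
    exact mul_le_mul_of_nonneg_right ha hv
  have h2 : |x| ≤ |x - a * v| + |a * v| := by
    have := abs_add_le (x - a * v) (a * v)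
    simpa using this
  linarith

lemma ball_mem {a x r v : ℝ} (hv : 0 < v) (h : |x - a * v| ≤ r) :
    a ∈ Metric.closedBall (x / v) (r / v) := by
  rw [Metric.mem_closedBall, Real.dist_eq, show a - x / v = -((x - a * v) / v) by
    field_simp
    ring, abs_neg, abs_div, abs_of_pos hv]
  exact div_le_div_of_nonneg_right h hv.le

lemma badP_le {P : ℤ × ℤ → Prop} {w : ℤ × ℤ → ℝ} (h : AvgP P w) {v y : ℕ → ℝ}
    (hv : ∀ n, 1 ≤ v n) (hy : ∀ n, 0 < y n) (C R : ℕ) (hR : 1 ≤ R) :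
    ∃ K : ℝ, 0 ≤ K ∧ ∀ n, volume (BadP P w v y C R n) ≤
      ENNReal.ofReal (K * ((n : ℝ) ^ C / v n * (v n + (n : ℝ) ^ C)) ^ 2 / y n) := by
  classical
  obtain ⟨K, hK⟩ := h
  refine ⟨4 * (|K| * ((R : ℝ) + 1) ^ 2), by positivity, fun n => ?_⟩
  have hv1 := hv n
  have hy1 := hy n
  have hv0 : 0 < v n := by linarith
  have hn0 : (0 : ℝ) ≤ (n : ℝ) ^ C := by positivity
  have hR1 : (1 : ℝ) ≤ R := by exact_mod_cast hR
  set T : ℕ := ⌈(R : ℝ) * v n + (n : ℝ) ^ C⌉₊ with hT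
  have hTr : (R : ℝ) * v n + (n : ℝ) ^ C ≤ T := Nat.le_ceil _
  have hT1 : 1 ≤ T := by
    have : (1 : ℝ) ≤ T := by nlinarith
    exact_mod_cast this
  have hTle : (T : ℝ) ≤ ((R : ℝ) + 1) * (v n + (n : ℝ) ^ C) := by
    have h1 : (T : ℝ) < (R : ℝ) * v n + (n : ℝ) ^ C + 1 := Nat.ceil_lt_add_one (by positivity)
    nlinarith
  set F : Finset (ℤ × ℤ) := (Icc (-(T : ℤ)) T ×ˢ Icc (-(T : ℤ)) T).filter
    (fun t => P t ∧ y n < w t) with hF
  have hFsum : ∑ t ∈ F, w t ≤ K * (T : ℝ) ^ 2 := by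
    refine hK F T hT1 fun t ht => ?_
    obtain ⟨h1, h2⟩ := mem_filter.1 ht
    obtain ⟨h3, h4⟩ := mem_product.1 h1
    exact ⟨abs_le.2 (mem_Icc.1 h3), abs_le.2 (mem_Icc.1 h4), h2.1⟩
  have hFc : (F.card : ℝ) ≤ |K| * (T : ℝ) ^ 2 / y n := by
    rw [le_div_iff₀ hy1]
    have h1 : (F.card : ℝ) * y n ≤ ∑ t ∈ F, w t := by
      rw [← nsmul_eq_mul]
      exact card_nsmul_le_sum _ _ _ fun t ht => (mem_filter.1 ht).2.2.le
    refine h1.trans (hFsum.trans ?_)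
    exact mul_le_mul_of_nonneg_right (le_abs_self K) (by positivity)
  have hsub : BadP P w v y C R n ⊆ ⋃ t ∈ F,
      (Metric.closedBall ((t.1 : ℝ) / v n) ((n : ℝ) ^ C / v n) ×ˢ
        Metric.closedBall ((t.2 : ℝ) / v n) ((n : ℝ) ^ C / v n)) := by
    rintro α ⟨ha1, ha2, t, ht1, ht2, hP, hyw⟩
    have h1 := (near_le ha1 hv0.le ht1).trans hTr
    have h2 := (near_le ha2 hv0.le ht2).trans hTr
    have h1' : |t.1| ≤ (T : ℤ) := by exact_mod_cast h1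
    have h2' : |t.2| ≤ (T : ℤ) := by exact_mod_cast h2
    have htF : t ∈ F := by
      rw [hF, mem_filter, mem_product, mem_Icc, mem_Icc]
      exact ⟨⟨abs_le.1 h1', abs_le.1 h2'⟩, hP, hyw⟩
    exact Set.mem_iUnion₂.2 ⟨t, htF, Set.mem_prod.2 ⟨ball_mem hv0 ht1, ball_mem hv0 ht2⟩⟩
  calc volume (BadP P w v y C R n)
      ≤ volume (⋃ t ∈ F, (Metric.closedBall ((t.1 : ℝ) / v n) ((n : ℝ) ^ C / v n) ×ˢ
        Metric.closedBall ((t.2 : ℝ) / v n) ((n : ℝ) ^ C / v n))) := measure_mono hsub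
    _ ≤ ∑ t ∈ F, volume (Metric.closedBall ((t.1 : ℝ) / v n) ((n : ℝ) ^ C / v n) ×ˢ
        Metric.closedBall ((t.2 : ℝ) / v n) ((n : ℝ) ^ C / v n)) :=
        measure_biUnion_finset_le _ _
    _ = ∑ t ∈ F, ENNReal.ofReal ((2 * ((n : ℝ) ^ C / v n)) ^ 2) := by
        refine sum_congr rfl fun t _ => ?_
        rw [Measure.volume_eq_prod, Measure.prod_prod, Real.volume_closedBall, Real.volume_closedBall,
          ← ENNReal.ofReal_mul (by positivity), pow_two]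
    _ = ENNReal.ofReal ((F.card : ℝ) * (2 * ((n : ℝ) ^ C / v n)) ^ 2) := by
        rw [sum_const, nsmul_eq_mul, ENNReal.ofReal_mul (Nat.cast_nonneg _), ENNReal.ofReal_natCast]
    _ ≤ _ := by
        refine ENNReal.ofReal_le_ofReal ?_
        calc (F.card : ℝ) * (2 * ((n : ℝ) ^ C / v n)) ^ 2
            ≤ (|K| * (((R : ℝ) + 1) * (v n + (n : ℝ) ^ C)) ^ 2 / y n) *
                (2 * ((n : ℝ) ^ C / v n)) ^ 2 := by
              refine mul_le_mul_of_nonneg_right (hFc.trans ?_) (by positivity)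
              refine div_le_div_of_nonneg_right ?_ hy1.le
              exact mul_le_mul_of_nonneg_left (pow_le_pow_left₀ (by positivity) hTle 2) (abs_nonneg _)
          _ = 4 * (|K| * ((R : ℝ) + 1) ^ 2) * ((n : ℝ) ^ C / v n * (v n + (n : ℝ) ^ C)) ^ 2 / y n := by
              field_simp
              ring

/-- **The windows in the plane.** -/
theorem coreP {P : ℤ × ℤ → Prop} {w : ℤ × ℤ → ℝ} (h : AvgP P w) {v y : ℕ → ℝ}
    (hv : ∀ n, 1 ≤ v n) (hy : ∀ n, 0 < y n) (C : ℕ)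
    (hs : Summable fun n : ℕ => ((n : ℝ) ^ C / v n * (v n + (n : ℝ) ^ C)) ^ 2 / y n) :
    ∀ᵐ α : ℝ × ℝ, ∀ᶠ n : ℕ in atTop, ∀ t : ℤ × ℤ, |(t.1 : ℝ) - α.1 * v n| ≤ (n : ℝ) ^ C →
      |(t.2 : ℝ) - α.2 * v n| ≤ (n : ℝ) ^ C → P t → w t ≤ y n := by
  have key : ∀ R : ℕ, ∀ᵐ α : ℝ × ℝ, ∀ᶠ n : ℕ in atTop, α ∉ BadP P w v y C (R + 1) n := by
    intro R
    obtain ⟨K, hK0, hK⟩ := badP_le h hv hy C (R + 1) (by omega)
    refine ae_eventually_notMem (ne_top_of_le_ne_top ?_ (ENNReal.tsum_le_tsum hK))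
    have h1 := (hs.mul_left K).tsum_ofReal_ne_top
    simpa only [mul_div_assoc] using h1
  filter_upwards [ae_all_iff.2 key] with α hα
  obtain ⟨R, hR⟩ := exists_nat_ge (max |α.1| |α.2|)
  filter_upwards [hα R] with n hn t ht1 ht2 hP
  by_contra hcon
  refine hn ⟨?_, ?_, t, ht1, ht2, hP, not_le.1 hcon⟩
  · push_cast
    linarith [le_max_left |α.1| |α.2|]
  · push_cast
    linarith [le_max_right |α.1| |α.2|]

/-- one average is bounded, and the sequence grows at least like `n ^ C` -/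
theorem averageP {P : ℤ × ℤ → Prop} {w : ℤ × ℤ → ℝ} (h : AvgP P w) {v : ℕ → ℝ}
    (hv : ∀ n, 1 ≤ v n) :
    ∀ᵐ α : ℝ × ℝ, ∀ (C : ℕ) (ε : ℝ), 0 < ε → (∀ᶠ n : ℕ in atTop, (n : ℝ) ^ C ≤ v n) →
      ∀ᶠ n : ℕ in atTop, ∀ t : ℤ × ℤ, |(t.1 : ℝ) - α.1 * v n| ≤ (n : ℝ) ^ C →
        |(t.2 : ℝ) - α.2 * v n| ≤ (n : ℝ) ^ C → P t → w t ≤ (n : ℝ) ^ (2 * (C : ℝ) + 1 + ε) := by
  have key : ∀ C m : ℕ, (∀ᶠ n : ℕ in atTop, (n : ℝ) ^ C ≤ v n) → ∀ᵐ α : ℝ × ℝ,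
      ∀ᶠ n : ℕ in atTop, ∀ t : ℤ × ℤ, |(t.1 : ℝ) - α.1 * v n| ≤ (n : ℝ) ^ C →
        |(t.2 : ℝ) - α.2 * v n| ≤ (n : ℝ) ^ C → P t →
        w t ≤ ((n : ℝ) + 1) ^ (2 * (C : ℝ) + 1 + 1 / (m + 1)) := by
    intro C m hC
    refine coreP (y := fun n => ((n : ℝ) + 1) ^ (2 * (C : ℝ) + 1 + 1 / (m + 1))) h hv
      (fun n => by positivity) C ?_
    have hs0 : Summable fun n : ℕ => 4 * (((n : ℝ) + 1) ^ ((1 : ℝ) + 1 / (m + 1)))⁻¹ := by
      have h1 := (Real.summable_nat_rpow_inv.2 (show (1 : ℝ) < 1 + 1 / ((m : ℝ) + 1) by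
        have : (0 : ℝ) < 1 / ((m : ℝ) + 1) := by positivity
        linarith)).comp_injective (add_left_injective 1)
      refine (h1.mul_left 4).congr fun n => ?_
      simp [Function.comp]
    refine summable_of_isBigO_nat hs0 ?_
    refine Asymptotics.IsBigO.of_bound 1 ?_
    filter_upwards [hC] with n hn
    have hv1 := hv n
    have hv0 : 0 < v n := by linarith
    rw [Real.norm_of_nonneg (by positivity), Real.norm_of_nonneg (by positivity), one_mul]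
    have h2 : (n : ℝ) ^ C / v n * (v n + (n : ℝ) ^ C) ≤ 2 * ((n : ℝ) + 1) ^ C := by
      have h3 : (n : ℝ) ^ C / v n * (v n + (n : ℝ) ^ C) ≤ (n : ℝ) ^ C / v n * (2 * v n) :=
        mul_le_mul_of_nonneg_left (by linarith) (by positivity)
      have h4 : (n : ℝ) ^ C / v n * (2 * v n) = 2 * (n : ℝ) ^ C := by
        field_simp
      have h5 : (n : ℝ) ^ C ≤ ((n : ℝ) + 1) ^ C := pow_le_pow_left₀ (by positivity) (by linarith) C
      linarith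
    have h6 : ((n : ℝ) ^ C / v n * (v n + (n : ℝ) ^ C)) ^ 2 ≤
        4 * ((n : ℝ) + 1) ^ (2 * (C : ℝ)) := by
      refine (pow_le_pow_left₀ (by positivity) h2 2).trans (le_of_eq ?_)
      rw [show (2 * (C : ℝ)) = ((2 * C : ℕ) : ℝ) by push_cast; ring, Real.rpow_natCast]
      ring
    calc ((n : ℝ) ^ C / v n * (v n + (n : ℝ) ^ C)) ^ 2 /
          ((n : ℝ) + 1) ^ (2 * (C : ℝ) + 1 + 1 / (m + 1))
        ≤ 4 * ((n : ℝ) + 1) ^ (2 * (C : ℝ)) / ((n : ℝ) + 1) ^ (2 * (C : ℝ) + 1 + 1 / (m + 1)) :=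
          div_le_div_of_nonneg_right h6 (by positivity)
      _ = 4 * (((n : ℝ) + 1) ^ ((1 : ℝ) + 1 / (m + 1)))⁻¹ := by
          rw [show 2 * (C : ℝ) + 1 + 1 / ((m : ℝ) + 1) = 2 * (C : ℝ) + (1 + 1 / ((m : ℝ) + 1)) by ring,
            Real.rpow_add (by positivity)]
          field_simp
  have key2 : ∀ C m : ℕ, ∀ᵐ α : ℝ × ℝ, (∀ᶠ n : ℕ in atTop, (n : ℝ) ^ C ≤ v n) →
      ∀ᶠ n : ℕ in atTop, ∀ t : ℤ × ℤ, |(t.1 : ℝ) - α.1 * v n| ≤ (n : ℝ) ^ C →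
        |(t.2 : ℝ) - α.2 * v n| ≤ (n : ℝ) ^ C → P t →
        w t ≤ ((n : ℝ) + 1) ^ (2 * (C : ℝ) + 1 + 1 / (m + 1)) := by
    intro C m
    by_cases hC : ∀ᶠ n : ℕ in atTop, (n : ℝ) ^ C ≤ v n
    · filter_upwards [key C m hC] with α hα _
      exact hα
    · exact Eventually.of_forall fun α hα => absurd hα hC
  filter_upwards [ae_all_iff.2 fun C => ae_all_iff.2 (key2 C)] with α hα C ε hε hC
  obtain ⟨m, hm⟩ := exists_nat_one_div_lt (show (0 : ℝ) < ε / 2 by positivity)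
  have hlim : ∀ᶠ n : ℕ in atTop, ((n : ℝ) + 1) ^ (2 * (C : ℝ) + 1 + ε / 2) ≤
      (n : ℝ) ^ (2 * (C : ℝ) + 1 + ε) := by
    have h1 : Tendsto (fun n : ℕ => (n : ℝ) ^ (ε / 2)) atTop atTop :=
      (tendsto_rpow_atTop (by positivity)).comp tendsto_natCast_atTop_atTop
    filter_upwards [h1.eventually_ge_atTop ((2 : ℝ) ^ (2 * (C : ℝ) + 1 + ε / 2)),
      eventually_ge_atTop 1] with n hn hn1
    have hn1' : (1 : ℝ) ≤ n := by exact_mod_cast hn1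
    calc ((n : ℝ) + 1) ^ (2 * (C : ℝ) + 1 + ε / 2) ≤ (2 * (n : ℝ)) ^ (2 * (C : ℝ) + 1 + ε / 2) :=
          Real.rpow_le_rpow (by positivity) (by linarith) (by positivity)
      _ = (2 : ℝ) ^ (2 * (C : ℝ) + 1 + ε / 2) * (n : ℝ) ^ (2 * (C : ℝ) + 1 + ε / 2) :=
          Real.mul_rpow (by norm_num) (by positivity)
      _ ≤ (n : ℝ) ^ (ε / 2) * (n : ℝ) ^ (2 * (C : ℝ) + 1 + ε / 2) :=
          mul_le_mul_of_nonneg_right hn (by positivity)
      _ = (n : ℝ) ^ (2 * (C : ℝ) + 1 + ε) := by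
          rw [← Real.rpow_add (by positivity)]
          congr 1
          ring
  filter_upwards [hα C m hC, hlim] with n hn hn2 t ht1 ht2 hP
  refine (hn t ht1 ht2 hP).trans (le_trans ?_ hn2)
  refine Real.rpow_le_rpow_of_exponent_le ?_ ?_
  · linarith [(Nat.cast_nonneg n : (0 : ℝ) ≤ n)]
  · linarith

end Pool.Agent.V1166.WI
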