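import Mathlib
import Pool.Agent.V1166.WI.Plane
import Pool.Agent.V1166.WI.Gcd
import Pool.Agent.W307.FK.Main

/-!
# The second moment of the 2-Selmer groups of `y² = x (x - d a) (x - d b)` over all pairs `(a, b)`
-/

set_option autoImplicit false

namespace Pool.Agent.V1166.WI

open Finset

open Pool.Agent.W307.SE (Sel)

lemma avgn1 : ∃ C : ℝ, 0 ≤ C ∧ ∀ (D : ℤ) (T : ℕ), D ≠ 0 → 1 ≤ T →
    ∑ t ∈ Sq T, Pool.Agent.W307.FK.SS D t ≤ C * 128 ^ D.natAbs.primeFactors.card * (T : ℝ) ^ 2 := by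
  obtain ⟨C, hC0, hC⟩ := Pool.Agent.W307.FK.avgn_of Pool.Agent.W307.FK.expf 1
  refine ⟨9 * C, by positivity, fun D T hD hT => ?_⟩
  rw [sq_sum]
  refine (hC D (-(T : ℤ) - 1) (-(T : ℤ) - 1) (2 * T + 1) hD (by omega) (by rw [pow_one]; omega)
    (by rw [pow_one]; omega)).trans ?_
  have h4 : ((2 * T + 1 : ℕ) : ℝ) ≤ 3 * T := by
    have : 2 * T + 1 ≤ 3 * T := by omega
    exact_mod_cast this
  calc C * 128 ^ D.natAbs.primeFactors.card * ((2 * T + 1 : ℕ) : ℝ) ^ 2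
      ≤ C * 128 ^ D.natAbs.primeFactors.card * (3 * T) ^ 2 :=
        mul_le_mul_of_nonneg_left (pow_le_pow_left₀ (by positivity) h4 2) (by positivity)
    _ = 9 * C * 128 ^ D.natAbs.primeFactors.card * (T : ℝ) ^ 2 := by ring

lemma SS_nonneg (D : ℤ) (t : ℤ × ℤ) : 0 ≤ Pool.Agent.W307.FK.SS D t := by
  unfold Pool.Agent.W307.FK.SS
  split_ifs
  · positivity
  · exact le_rfl

/-- the second moment over all pairs -/
lemma avg_pairs (d : ℤ) (hd : d ≠ 0) :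
    AvgP (fun t => t.1 ≠ 0 ∧ t.2 ≠ 0 ∧ t.1 ≠ t.2)
      (fun t => ((Sel (d * t.1) (d * t.2)).ncard : ℝ) ^ 2) := by
  obtain ⟨C, hC0, hC⟩ := avgn1
  obtain ⟨S, hS0, hS⟩ := Pool.Agent.W334.FK.som
  refine ⟨C * 128 ^ d.natAbs.primeFactors.card * S, fun F T hT hF => ?_⟩
  have h1 : ∑ t ∈ F, ((Sel (d * t.1) (d * t.2)).ncard : ℝ) ^ 2 =
      ∑ t ∈ F, Pool.Agent.W307.FK.SS (d * ((t.1.gcd t.2 : ℕ) : ℤ))
        (t.1 / (t.1.gcd t.2 : ℤ), t.2 / (t.1.gcd t.2 : ℤ)) := by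
    refine sum_congr rfl fun t ht => ?_
    obtain ⟨-, -, h2, h3, h4⟩ := hF t ht
    have hg : 0 < t.1.gcd t.2 := Int.gcd_pos_of_ne_zero_left _ h2
    have hg' : ((t.1.gcd t.2 : ℕ) : ℤ) ≠ 0 := by exact_mod_cast hg.ne'
    have e1 : ((t.1.gcd t.2 : ℕ) : ℤ) * (t.1 / (t.1.gcd t.2 : ℤ)) = t.1 :=
      Int.mul_ediv_cancel' (Int.gcd_dvd_left _ _)
    have e2 : ((t.1.gcd t.2 : ℕ) : ℤ) * (t.2 / (t.1.gcd t.2 : ℤ)) = t.2 :=
      Int.mul_ediv_cancel' (Int.gcd_dvd_right _ _)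
    have c1 : IsCoprime (t.1 / (t.1.gcd t.2 : ℤ)) (t.2 / (t.1.gcd t.2 : ℤ)) :=
      Int.isCoprime_iff_gcd_eq_one.2 (Int.gcd_div_gcd_div_gcd hg)
    unfold Pool.Agent.W307.FK.SS
    have c2 : t.1 / (t.1.gcd t.2 : ℤ) ≠ 0 := fun h => h2 (by rw [← e1, h, mul_zero])
    have c3 : t.2 / (t.1.gcd t.2 : ℤ) ≠ 0 := fun h => h3 (by rw [← e2, h, mul_zero])
    have c4 : t.1 / (t.1.gcd t.2 : ℤ) ≠ t.2 / (t.1.gcd t.2 : ℤ) := fun h => h4 (by
      calc t.1 = ((t.1.gcd t.2 : ℕ) : ℤ) * (t.1 / (t.1.gcd t.2 : ℤ)) := e1.symm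
        _ = ((t.1.gcd t.2 : ℕ) : ℤ) * (t.2 / (t.1.gcd t.2 : ℤ)) := by rw [h]
        _ = t.2 := e2)
    rw [if_pos ⟨c1, c2, c3, c4⟩]
    simp only [mul_assoc, e1, e2]
  rw [h1]
  refine (gcd_sum (fun g t => Pool.Agent.W307.FK.SS (d * (g : ℤ)) t) (fun g t => SS_nonneg _ _) F T
    (fun t ht => ⟨(hF t ht).1, (hF t ht).2.1, (hF t ht).2.2.1⟩)).trans ?_
  calc ∑ g ∈ Icc 1 T, ∑ t ∈ Sq (T / g), Pool.Agent.W307.FK.SS (d * (g : ℤ)) t
      ≤ ∑ g ∈ Icc 1 T, C * 128 ^ d.natAbs.primeFactors.card * (T : ℝ) ^ 2 *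
          ((128 : ℝ) ^ g.primeFactors.card / (g : ℝ) ^ 2) := by
        refine sum_le_sum fun g hg => ?_
        obtain ⟨hg1, hgT⟩ := mem_Icc.1 hg
        have hg0 : g ≠ 0 := by omega
        have hgr : (0 : ℝ) < g := by exact_mod_cast hg1
        refine (hC (d * (g : ℤ)) (T / g) (mul_ne_zero hd (by exact_mod_cast hg0))
          ((Nat.one_le_div_iff hg1).2 hgT)).trans ?_
        have h2 : ((T / g : ℕ) : ℝ) ≤ (T : ℝ) / g := Nat.cast_div_le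
        calc C * 128 ^ (d * (g : ℤ)).natAbs.primeFactors.card * ((T / g : ℕ) : ℝ) ^ 2
            ≤ C * (128 ^ d.natAbs.primeFactors.card * 128 ^ g.primeFactors.card) *
                ((T : ℝ) / g) ^ 2 := by
              refine mul_le_mul (mul_le_mul_of_nonneg_left (omega_mul d hd g hg0) hC0)
                (pow_le_pow_left₀ (by positivity) h2 2) (by positivity) (by positivity)
          _ = _ := by
              rw [div_pow]
              ring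
    _ = C * 128 ^ d.natAbs.primeFactors.card * (T : ℝ) ^ 2 *
          ∑ g ∈ Icc 1 T, ((128 : ℝ) ^ g.primeFactors.card / (g : ℝ) ^ 2) := by rw [mul_sum]
    _ ≤ C * 128 ^ d.natAbs.primeFactors.card * (T : ℝ) ^ 2 * S :=
        mul_le_mul_of_nonneg_left (hS T) (by positivity)
    _ = _ := by ring

end Pool.Agent.V1166.WI
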